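import Pool.Agent.H490Z.SH.MK
import Pool.Agent.Helper133.Brouwer

set_option autoImplicit false

open Set Topology unitInterval

namespace Pool.Agent.H490Z.SH

/-- the Hilbert cube -/
abbrev Q : Type := ℕ → I

/-- `U j`, `V j` are disjoint and miss the two opposite faces in direction `e j` -/
def Wit (U V : ℕ → Set Q) (e : ℕ → ℕ) : Prop :=
  ∀ j, Disjoint (U j) (V j) ∧ (∀ x ∈ U j, x (e j) ≠ 1) ∧ ∀ x ∈ V j, x (e j) ≠ 0

/-- the pairs of faces in the directions `e j` form an inessential family on `K` -/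
def Iness (K : Set Q) (e : ℕ → ℕ) : Prop :=
  ∃ U V : ℕ → Set Q, (∀ j, IsOpen (U j) ∧ IsOpen (V j)) ∧ Wit U V e ∧ K ⊆ ⋃ j, (U j ∪ V j)

/-- a subfamily of directions -/
def sub (a : ℕ) (e : ℕ → ℕ) (j : ℕ) : ℕ := e (Nat.pair a j)

lemma Iness.mono {K L : Set Q} {e : ℕ → ℕ} (h : Iness L e) (hKL : K ⊆ L) : Iness K e := by
  obtain ⟨U, V, h1, h2, h3⟩ := h
  exact ⟨U, V, h1, h2, hKL.trans h3⟩

lemma iness_empty (e : ℕ → ℕ) : Iness ∅ e :=
  ⟨fun _ => ∅, fun _ => ∅, fun _ => ⟨isOpen_empty, isOpen_empty⟩, fun _ => by simp,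
    empty_subset _⟩

lemma iness_union {K : Set Q} {e : ℕ → ℕ} (T : ℕ → Set Q) (hT : ∀ a, Iness (T a) (sub a e))
    (hK : K ⊆ ⋃ a, T a) : Iness K e := by
  choose U V h1 h2 h3 using hT
  refine ⟨fun n => U n.unpair.1 n.unpair.2, fun n => V n.unpair.1 n.unpair.2,
    fun n => h1 _ _, fun n => ?_, fun x hx => ?_⟩
  · have := h2 n.unpair.1 n.unpair.2
    simpa only [sub, Nat.pair_unpair] using this
  · obtain ⟨a, ha⟩ := mem_iUnion.1 (hK hx)
    obtain ⟨j, hj⟩ := mem_iUnion.1 (h3 a ha)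
    exact mem_iUnion.2 ⟨Nat.pair a j, by simpa only [Nat.unpair_pair] using hj⟩

lemma iness_disj {K L : Set Q} {e : ℕ → ℕ} (hK : IsClosed K) (hL : IsClosed L)
    (hd : Disjoint K L) (h1 : Iness K e) (h2 : Iness L e) : Iness (K ∪ L) e := by
  obtain ⟨O, P, hO, hP, hKO, hLP, hOP⟩ := normal_separation hK hL hd
  obtain ⟨U, V, a1, a2, a3⟩ := h1
  obtain ⟨U', V', b1, b2, b3⟩ := h2
  refine ⟨fun j => (U j ∩ O) ∪ (U' j ∩ P), fun j => (V j ∩ O) ∪ (V' j ∩ P),
    fun j => ⟨((a1 j).1.inter hO).union ((b1 j).1.inter hP),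
      ((a1 j).2.inter hO).union ((b1 j).2.inter hP)⟩, fun j => ⟨?_, ?_, ?_⟩, ?_⟩
  · refine disjoint_left.2 ?_
    rintro x (h | h) (h' | h')
    · exact disjoint_left.1 (a2 j).1 h.1 h'.1
    · exact disjoint_left.1 hOP h.2 h'.2
    · exact disjoint_left.1 hOP h'.2 h.2
    · exact disjoint_left.1 (b2 j).1 h.1 h'.1
  · rintro x (h | h)
    exacts [(a2 j).2.1 x h.1, (b2 j).2.1 x h.1]
  · rintro x (h | h)
    exacts [(a2 j).2.2 x h.1, (b2 j).2.2 x h.1]
  · rintro x (h | h)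
    · obtain ⟨j, hj | hj⟩ := mem_iUnion.1 (a3 h)
      · exact mem_iUnion.2 ⟨j, Or.inl (Or.inl ⟨hj, hKO h⟩)⟩
      · exact mem_iUnion.2 ⟨j, Or.inr (Or.inl ⟨hj, hKO h⟩)⟩
    · obtain ⟨j, hj | hj⟩ := mem_iUnion.1 (b3 h)
      · exact mem_iUnion.2 ⟨j, Or.inl (Or.inr ⟨hj, hLP h⟩)⟩
      · exact mem_iUnion.2 ⟨j, Or.inr (Or.inr ⟨hj, hLP h⟩)⟩

lemma iness_iInter {K : ℕ → Set Q} {e : ℕ → ℕ} (hK : ∀ n, IsClosed (K n)) (ha : Antitone K)
    (h : Iness (⋂ n, K n) e) : ∃ n, Iness (K n) e := by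
  obtain ⟨U, V, a1, a2, a3⟩ := h
  obtain ⟨n, hn⟩ := exists_subset_nhds_of_isCompact' (V := K) ha.directed_ge
    (fun n => (hK n).isCompact) hK (U := ⋃ j, (U j ∪ V j))
    (fun x hx => (isOpen_iUnion fun j => (a1 j).1.union (a1 j).2).mem_nhds (a3 hx))
  exact ⟨n, U, V, a1, a2, hn⟩

lemma ess_slice {K : Set Q} {e : ℕ → ℕ} (h : ¬ Iness K e) (t : I) :
    ¬ Iness (K ∩ {x | x (e 0) = t}) (fun j => e (j + 1)) := by
  rintro ⟨U, V, a1, a2, a3⟩
  refine h ⟨fun j => Nat.casesOn j {x | x (e 0) < t} U, fun j => Nat.casesOn j {x | t < x (e 0)} V,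
    fun j => ?_, fun j => ?_, fun x hx => ?_⟩
  · cases j with
    | zero => exact ⟨isOpen_lt (continuous_apply _) continuous_const,
        isOpen_lt continuous_const (continuous_apply _)⟩
    | succ j => exact a1 j
  · cases j with
    | zero =>
      refine ⟨disjoint_left.2 fun x (h : x (e 0) < t) (h' : t < x (e 0)) => lt_asymm h h',
        fun x (h : x (e 0) < t) h' => ?_, fun x (h : t < x (e 0)) h' => ?_⟩
      · rw [h'] at h; exact not_lt.2 le_one' h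
      · rw [h'] at h; exact not_lt.2 nonneg' h
    | succ j => exact a2 j
  · rcases lt_trichotomy (x (e 0)) t with h | h | h
    · exact mem_iUnion.2 ⟨0, Or.inl h⟩
    · obtain ⟨j, hj⟩ := mem_iUnion.1 (a3 ⟨hx, h⟩)
      exact mem_iUnion.2 ⟨j + 1, hj⟩
    · exact mem_iUnion.2 ⟨0, Or.inr h⟩

lemma ess_nonempty {K : Set Q} {e : ℕ → ℕ} (h : ¬ Iness K e) : K.Nonempty := by
  rcases K.eq_empty_or_nonempty with rfl | h'
  · exact absurd (iness_empty e) h
  · exact h'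

lemma ess_two {K : Set Q} {e : ℕ → ℕ} (h : ¬ Iness K e) : ∃ x ∈ K, ∃ y ∈ K, x ≠ y := by
  obtain ⟨x, hx, hx1⟩ := ess_nonempty (ess_slice h 0)
  obtain ⟨y, hy, hy1⟩ := ess_nonempty (ess_slice h 1)
  refine ⟨x, hx, y, hy, fun hxy => zero_ne_one (α := I) ?_⟩
  rw [← (hx1 : x (e 0) = 0), hxy, (hy1 : y (e 0) = 1)]

lemma ess_base (q : I) : ¬ Iness {x : Q | x 0 = q} (fun j => j + 1) := by
  rintro ⟨U, V, a1, a2, a3⟩
  have hc : IsClosed {x : Q | x 0 = q} := isClosed_eq (continuous_apply 0) continuous_const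
  obtain ⟨s, hs⟩ := hc.isCompact.elim_finite_subcover (fun j => U j ∪ V j)
    (fun j => (a1 j).1.union (a1 j).2) a3
  obtain ⟨n, hn⟩ := s.exists_nat_subset_range
  -- shrink the finite cover
  obtain ⟨W, hW1, hW2, hW3⟩ := exists_subset_iUnion_closed_subset
    (u := fun p : Fin n × Bool => if p.2 then U p.1 else V p.1) hc
    (fun p => by split_ifs; exacts [(a1 _).1, (a1 _).2]) (fun _ _ => toFinite _) (by
      intro x hx
      obtain ⟨j, hj, h⟩ := mem_iUnion₂.1 (hs hx)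
      have hjn : j < n := Finset.mem_range.1 (hn hj)
      rcases h with h | h
      · exact mem_iUnion.2 ⟨(⟨j, hjn⟩, true), by simpa using h⟩
      · exact mem_iUnion.2 ⟨(⟨j, hjn⟩, false), by simpa using h⟩)
  have hf : ∀ j : Fin n, ∃ f : C(Q, ℝ), EqOn f 0 (W (j, false) ∪ {x | x (j + 1) = 1}) ∧
      EqOn f 1 (W (j, true) ∪ {x | x (j + 1) = 0}) ∧ ∀ x, f x ∈ Icc (0 : ℝ) 1 := by
    intro j
    have b1 : W (j, true) ⊆ U j := by simpa using hW3 (j, true)
    have b2 : W (j, false) ⊆ V j := by simpa using hW3 (j, false)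
    refine exists_continuous_zero_one_of_isClosed
      ((hW2 _).union (isClosed_eq (continuous_apply _) continuous_const))
      ((hW2 _).union (isClosed_eq (continuous_apply _) continuous_const)) (disjoint_left.2 ?_)
    rintro x (h | h) (h' | h')
    · exact disjoint_left.1 (a2 j).1 (b1 h') (b2 h)
    · exact (a2 j).2.2 x (b2 h) h'
    · exact (a2 j).2.1 x (b1 h') h
    · exact zero_ne_one ((h' : x (j + 1) = 0).symm.trans h)
  choose f f0 f1 f2 using hf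
  let p : (Fin n → ℝ) → Q := fun y k =>
    Nat.casesOn k q fun k => if h : k < n then projIcc 0 1 zero_le_one (y ⟨k, h⟩) else 0
  have hp : Continuous p := by
    refine continuous_pi fun k => ?_
    cases k with
    | zero => exact continuous_const
    | succ k =>
      by_cases h : k < n
      · simp only [p, dif_pos h]
        exact continuous_projIcc.comp (continuous_apply _)
      · simp only [p, dif_neg h]
        exact continuous_const
  obtain ⟨y, hy⟩ := Pool.Agent.Helper133.Brouwer.brouwer (fun (y : Fin n → ℝ) j => f j (p y))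
    (continuous_pi fun j => (f j).continuous.comp hp) 1 fun y =>
      (pi_norm_le_iff_of_nonneg zero_le_one).2 fun j => by
        rw [Real.norm_eq_abs, abs_of_nonneg (f2 j _).1]; exact (f2 j _).2
  obtain ⟨⟨j, b⟩, hj⟩ := mem_iUnion.1 (hW1 (show p y ∈ {x : Q | x 0 = q} from rfl))
  have e1 : p y (j + 1) = projIcc 0 1 zero_le_one (f j (p y)) := by
    have : f j (p y) = y j := congrFun hy j
    rw [this]
    simp only [p, dif_pos j.2]
  cases b with
  | true =>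
    have b1 : W (j, true) ⊆ U j := by simpa using hW3 (j, true)
    refine (a2 j).2.1 _ (b1 hj) ?_
    rw [e1, f1 j (Or.inl hj)]
    exact projIcc_right _
  | false =>
    have b2 : W (j, false) ⊆ V j := by simpa using hW3 (j, false)
    refine (a2 j).2.2 _ (b2 hj) ?_
    rw [e1, f0 j (Or.inl hj)]
    exact projIcc_left _

lemma exists_codes : ∃ U V : ℕ → ℕ → Set Q, (∀ k j, IsOpen (U k j) ∧ IsOpen (V k j)) ∧
    ∀ K e, IsClosed K → Iness K e → ∃ k, Wit (U k) (V k) e ∧ K ⊆ ⋃ j, (U k j ∪ V k j) := by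
  classical
  obtain ⟨B, hB, hB2⟩ := exists_basis Q
  obtain ⟨en, hen⟩ := exists_surjective_nat (Finset (ℕ × ℕ × Bool))
  refine ⟨fun k j => ⋃ n, ⋃ (_ : (n, j, true) ∈ en k), B n,
    fun k j => ⋃ n, ⋃ (_ : (n, j, false) ∈ en k), B n,
    fun k j => ⟨isOpen_iUnion fun n => isOpen_iUnion fun _ => hB n,
      isOpen_iUnion fun n => isOpen_iUnion fun _ => hB n⟩, ?_⟩
  rintro K e hK ⟨U, V, a1, a2, a3⟩
  have h1 : ∀ x : K, ∃ c : ℕ × ℕ × Bool, x.1 ∈ B c.1 ∧
      B c.1 ⊆ if c.2.2 then U c.2.1 else V c.2.1 := by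
    intro x
    obtain ⟨j, hj | hj⟩ := mem_iUnion.1 (a3 x.2)
    · obtain ⟨n, h1, h2⟩ := hB2 _ _ (a1 j).1 hj
      exact ⟨(n, j, true), h1, by simpa using h2⟩
    · obtain ⟨n, h1, h2⟩ := hB2 _ _ (a1 j).2 hj
      exact ⟨(n, j, false), h1, by simpa using h2⟩
  choose c c1 c2 using h1
  obtain ⟨t, ht⟩ := hK.isCompact.elim_finite_subcover (fun x => B (c x).1)
    (fun x => hB _) fun y hy => mem_iUnion.2 ⟨⟨y, hy⟩, c1 _⟩
  obtain ⟨k, hk⟩ := hen (t.image c)
  have hU : ∀ j, (⋃ n, ⋃ (_ : (n, j, true) ∈ en k), B n) ⊆ U j := by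
    intro j
    refine iUnion₂_subset fun n hn => ?_
    rw [hk] at hn
    obtain ⟨x, -, hx⟩ := Finset.mem_image.1 hn
    simpa [hx] using c2 x
  have hV : ∀ j, (⋃ n, ⋃ (_ : (n, j, false) ∈ en k), B n) ⊆ V j := by
    intro j
    refine iUnion₂_subset fun n hn => ?_
    rw [hk] at hn
    obtain ⟨x, -, hx⟩ := Finset.mem_image.1 hn
    simpa [hx] using c2 x
  refine ⟨k, fun j => ⟨(a2 j).1.mono (hU j) (hV j), fun x hx => (a2 j).2.1 x (hU j hx),
    fun x hx => (a2 j).2.2 x (hV j hx)⟩, fun y hy => ?_⟩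
  obtain ⟨x, hx, hy⟩ := mem_iUnion₂.1 (ht hy)
  have hm : c x ∈ en k := hk ▸ Finset.mem_image_of_mem _ hx
  refine mem_iUnion.2 ⟨(c x).2.1, ?_⟩
  rcases hb : (c x).2.2 with _ | _
  · exact Or.inr (mem_iUnion₂.2 ⟨(c x).1, by rw [← hb]; exact hm, hy⟩)
  · exact Or.inl (mem_iUnion₂.2 ⟨(c x).1, by rw [← hb]; exact hm, hy⟩)

end Pool.Agent.H490Z.SH
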