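import Mathlib

set_option autoImplicit false

open Set Topology unitInterval

namespace Pool.Agent.H490Z.SH

/-- a measurable family of closed sets -/
def MK {Ω Y : Type} [MeasurableSpace Ω] [TopologicalSpace Y] (K : Ω → Set Y) : Prop :=
  (∀ w, IsClosed (K w)) ∧ ∀ C, IsClosed C → MeasurableSet {w | Disjoint (K w) C}

lemma exists_basis (Y : Type) [TopologicalSpace Y] [SecondCountableTopology Y] :
    ∃ B : ℕ → Set Y, (∀ n, IsOpen (B n)) ∧
      ∀ x U, IsOpen U → x ∈ U → ∃ n, x ∈ B n ∧ B n ⊆ U := by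
  obtain ⟨B, hB⟩ := ((TopologicalSpace.countable_countableBasis Y).insert ∅).exists_eq_range
    (insert_nonempty _ _)
  refine ⟨B, fun n => ?_, fun x U hU hx => ?_⟩
  · have : B n ∈ insert ∅ (TopologicalSpace.countableBasis Y) := hB ▸ mem_range_self n
    rcases this with h | h
    · rw [h]; exact isOpen_empty
    · exact TopologicalSpace.isOpen_of_mem_countableBasis h
  · obtain ⟨v, hv, hxv, hvU⟩ :=
      (TopologicalSpace.isBasis_countableBasis Y).exists_subset_of_mem_open hx hU
    have : v ∈ range B := hB ▸ mem_insert_of_mem _ hv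
    obtain ⟨n, rfl⟩ := this
    exact ⟨n, hxv, hvU⟩

variable {Ω Y Z : Type} [MeasurableSpace Ω] [TopologicalSpace Y] [TopologicalSpace Z]

lemma exists_meas_choice (p : ℕ → Ω → Prop) (hp : ∀ n, MeasurableSet {w | p n w}) :
    ∃ g : Ω → ℕ, Measurable g ∧ ∀ w, (∃ n, p n w) → p (g w) w := by
  classical
  have h : ∀ w, ∃ n, p n w ∨ ¬ ∃ k, p k w := by
    intro w
    by_cases h : ∃ k, p k w
    · obtain ⟨k, hk⟩ := h; exact ⟨k, Or.inl hk⟩
    · exact ⟨0, Or.inr h⟩
  have hm : MeasurableSet {w | ∃ k, p k w} := by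
    rw [ofPred_exists]; exact MeasurableSet.iUnion hp
  refine ⟨fun w => Nat.find (h w), measurable_find h fun k => (hp k).union hm.compl, fun w hw => ?_⟩
  exact (Nat.find_spec (h w)).resolve_right (not_not.2 hw)

lemma meas_eval {e : Ω → ℕ → ℕ} {n : Ω → ℕ} (he : Measurable e) (hn : Measurable n) :
    Measurable fun w => e w (n w) := by
  refine measurable_to_countable' fun b => ?_
  have : (fun w => e w (n w)) ⁻¹' {b} = ⋃ a, (n ⁻¹' {a} ∩ (fun w => e w a) ⁻¹' {b}) := by
    ext w; simp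
  rw [this]
  exact MeasurableSet.iUnion fun a => (hn (measurableSet_singleton a)).inter
    (((measurable_pi_apply a).comp he) (measurableSet_singleton b))

lemma MK.const {F : Set Y} (hF : IsClosed F) : MK (fun _ : Ω => F) :=
  ⟨fun _ => hF, fun _ _ => MeasurableSet.const _⟩

lemma MK.single [T1Space Y] [MeasurableSpace Y] [OpensMeasurableSpace Y] {f : Ω → Y}
    (hf : Measurable f) : MK (fun w => ({f w} : Set Y)) := by
  refine ⟨fun _ => isClosed_singleton, fun C hC => ?_⟩
  simp only [disjoint_singleton_left]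
  exact hf hC.isOpen_compl.measurableSet

lemma MK.comp {Ω' : Type} [MeasurableSpace Ω'] {K : Ω → Set Y} (hK : MK K) {g : Ω' → Ω}
    (hg : Measurable g) : MK (fun w => K (g w)) :=
  ⟨fun _ => hK.1 _, fun C hC => hg (hK.2 C hC)⟩

lemma MK.image [CompactSpace Y] [T2Space Z] {K : Ω → Set Y} (hK : MK K) {f : Y → Z}
    (hf : Continuous f) : MK (fun w => f '' K w) := by
  refine ⟨fun w => ((hK.1 w).isCompact.image hf).isClosed, fun C hC => ?_⟩
  simp only [disjoint_image_left]
  exact hK.2 _ (hC.preimage hf)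

lemma MK.preimage [CompactSpace Z] [T2Space Y] {K : Ω → Set Y} (hK : MK K) {f : Z → Y}
    (hf : Continuous f) : MK (fun w => f ⁻¹' K w) := by
  refine ⟨fun w => (hK.1 w).preimage hf, fun C hC => ?_⟩
  simp only [← disjoint_image_right]
  exact hK.2 _ (hC.isCompact.image hf).isClosed

lemma MK.subset {K : Ω → Set Y} (hK : MK K) {U : Set Y} (hU : IsOpen U) :
    MeasurableSet {w | K w ⊆ U} := by
  simpa only [disjoint_compl_right_iff_subset] using hK.2 _ hU.isClosed_compl

lemma MK.inter [CompactSpace Y] [T2Space Y] [SecondCountableTopology Y] {K L : Ω → Set Y}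
    (hK : MK K) (hL : MK L) : MK (fun w => K w ∩ L w) := by
  obtain ⟨B, hB, hB2⟩ := exists_basis Y
  refine ⟨fun w => (hK.1 w).inter (hL.1 w), fun C hC => ?_⟩
  have : {w | Disjoint (K w ∩ L w) C} = ⋃ s : Finset ℕ, ({w | K w ⊆ ⋃ n ∈ s, B n} ∩
      ⋂ n ∈ s, {w | Disjoint (L w) (closure (B n) ∩ C)}) := by
    ext w
    simp only [mem_ofPred_eq, mem_iUnion, mem_inter_iff, mem_iInter]
    constructor
    · intro h
      have h1 : ∀ x : K w, ∃ n, x.1 ∈ B n ∧ Disjoint (L w) (closure (B n) ∩ C) := by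
        intro x
        have hx : (L w ∩ C)ᶜ ∈ 𝓝 x.1 := ((hL.1 w).inter hC).isOpen_compl.mem_nhds
          fun hx => disjoint_left.1 h ⟨x.2, hx.1⟩ hx.2
        obtain ⟨t, ht, htc, hts⟩ := exists_mem_nhds_isClosed_subset hx
        obtain ⟨n, hn1, hn2⟩ := hB2 x.1 _ isOpen_interior (mem_interior_iff_mem_nhds.2 ht)
        refine ⟨n, hn1, disjoint_left.2 fun y hy hy2 => ?_⟩
        exact hts (closure_minimal (hn2.trans interior_subset) htc hy2.1) ⟨hy, hy2.2⟩
      choose n hn1 hn2 using h1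
      obtain ⟨t, ht⟩ := (hK.1 w).isCompact.elim_finite_subcover (fun x => B (n x))
        (fun x => hB _) fun y hy => mem_iUnion.2 ⟨⟨y, hy⟩, hn1 _⟩
      classical
      refine ⟨t.image n, fun y hy => ?_, fun k hk => ?_⟩
      · obtain ⟨x, hx, hy⟩ := mem_iUnion₂.1 (ht hy)
        exact mem_iUnion₂.2 ⟨n x, Finset.mem_image_of_mem _ hx, hy⟩
      · obtain ⟨x, -, rfl⟩ := Finset.mem_image.1 hk
        exact hn2 x
    · rintro ⟨s, h1, h2⟩
      refine disjoint_left.2 fun y hy hyC => ?_
      obtain ⟨n, hn, hyn⟩ := mem_iUnion₂.1 (h1 hy.1)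
      exact disjoint_left.1 (h2 n hn) hy.2 ⟨subset_closure hyn, hyC⟩
  rw [this]
  exact MeasurableSet.iUnion fun s => (hK.subset (isOpen_biUnion fun n _ => hB n)).inter
    (MeasurableSet.biInter s.countable_toSet fun n _ => hL.2 _ (isClosed_closure.inter hC))

lemma MK.choice {F : ℕ → Ω → Set Y} (hF : ∀ n, MK (F n)) {g : Ω → ℕ} (hg : Measurable g) :
    MK (fun w => F (g w) w) := by
  refine ⟨fun w => (hF _).1 w, fun C hC => ?_⟩
  have : {w | Disjoint (F (g w) w) C} = ⋃ a, (g ⁻¹' {a} ∩ {w | Disjoint (F a w) C}) := by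
    ext w; simp
  rw [this]
  exact MeasurableSet.iUnion fun a => (hg (measurableSet_singleton a)).inter ((hF a).2 C hC)

open Classical in
lemma MK.ite {K L : Ω → Set Y} (hK : MK K) (hL : MK L) {p : Ω → Prop}
    (hp : MeasurableSet {w | p w}) : MK (fun w => if p w then K w else L w) := by
  refine ⟨fun w => ?_, fun C hC => ?_⟩
  · dsimp only
    split_ifs
    exacts [hK.1 w, hL.1 w]
  · have : {w | Disjoint (if p w then K w else L w) C} =
        ({w | p w} ∩ {w | Disjoint (K w) C}) ∪ ({w | p w}ᶜ ∩ {w | Disjoint (L w) C}) := by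
      ext w; by_cases h : p w <;> simp [h]
    rw [this]
    exact (hp.inter (hK.2 C hC)).union (hp.compl.inter (hL.2 C hC))

lemma MK.iInter [CompactSpace Y] [T2Space Y] [SecondCountableTopology Y] {K : ℕ → Ω → Set Y}
    (hK : ∀ n, MK (K n)) : MK (fun w => ⋂ n, K n w) := by
  have hs : ∀ s : Finset ℕ, MK (fun w => ⋂ n ∈ s, K n w) := by
    intro s
    induction s using Finset.induction_on with
    | empty => simpa using MK.const isClosed_univ
    | insert a s _ ih => simpa using (hK a).inter ih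
  refine ⟨fun w => isClosed_iInter fun n => (hK n).1 w, fun C hC => ?_⟩
  have : {w | Disjoint (⋂ n, K n w) C} = ⋃ s : Finset ℕ, {w | Disjoint (⋂ n ∈ s, K n w) C} := by
    ext w
    simp only [mem_ofPred_eq, mem_iUnion]
    constructor
    · intro h
      obtain ⟨s, hs⟩ := hC.isCompact.elim_finite_subfamily_closed (fun n => K n w)
        (fun n => (hK n).1 w) (disjoint_iff_inter_eq_empty.1 h.symm)
      exact ⟨s, (disjoint_iff_inter_eq_empty.2 hs).symm⟩
    · rintro ⟨s, hs⟩
      exact hs.mono_left fun y hy => mem_iInter₂.2 fun n _ => mem_iInter.1 hy n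
  rw [this]
  exact MeasurableSet.iUnion fun s => (hs s).2 C hC

lemma MK.disj [CompactSpace Y] [T2Space Y] [SecondCountableTopology Y] {K L : Ω → Set Y}
    (hK : MK K) (hL : MK L) : MeasurableSet {w | Disjoint (K w) (L w)} := by
  have := (hK.inter hL).2 univ isClosed_univ
  simpa only [disjoint_univ, ← disjoint_iff_inter_eq_empty] using this

lemma MK.select {S : Ω → Set I} (hS : MK S) :
    ∃ v : Ω → I, Measurable v ∧ ∀ w t, S w = {t} → v w = t := by
  refine ⟨fun w => sInf (S w), measurable_of_Ioi fun a => ?_, fun w t h => by simp [h]⟩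
  have : (fun w => sInf (S w)) ⁻¹' Ioi a = {w | Disjoint (S w) (Iic a)} ∩ {_w | a < ⊤} := by
    ext w
    simp only [mem_preimage, mem_Ioi, mem_inter_iff, mem_ofPred_eq]
    constructor
    · intro h
      exact ⟨disjoint_left.2 fun y hy hya => absurd (h.trans_le (sInf_le hy)) (not_lt.2 hya),
        h.trans_le le_top⟩
    · rintro ⟨h1, h2⟩
      rcases (S w).eq_empty_or_nonempty with h | h
      · simpa [h] using h2
      · exact not_le.1 fun h3 => disjoint_left.1 h1 ((hS.1 w).sInf_mem h) h3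
  rw [this]
  exact (hS.2 _ isClosed_Iic).inter (MeasurableSet.const _)

end Pool.Agent.H490Z.SH
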