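import Pool.Agent.H490Z.SH.Stage

set_option autoImplicit false

open Set Topology unitInterval

namespace Pool.Agent.H490Z.SH

lemma exists_coding : ∃ Γ : ℕ → I → Set (Q × Q), (∀ i, MK (Γ i)) ∧
    ∀ G : ℕ → Set (Q × Q), (∀ i, IsClosed (G i)) → ∃ q, ∀ i, Γ i q = G i := by
  classical
  obtain ⟨B, hB, hB2⟩ := exists_basis (Q × Q)
  have u1 : ¬ Countable I := by
    rw [← Cardinal.mk_le_aleph0_iff, not_le, Cardinal.mk_Icc_real zero_lt_one]
    exact Cardinal.aleph0_lt_continuum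
  have u2 : ¬ Countable (ℕ → Bool) := by
    rw [← Cardinal.mk_le_aleph0_iff, not_le]
    simpa using Cardinal.aleph0_lt_continuum
  let φ : I ≃ᵐ (ℕ → Bool) := PolishSpace.measurableEquivOfNotCountable u1 u2
  refine ⟨fun i q => ⋂ n, if φ q (Nat.pair i n) = true then (B n)ᶜ else univ, fun i =>
    MK.iInter fun n => ?_, fun G hG => ?_⟩
  · convert (MK.const (hB n).isClosed_compl).ite (p := fun q => φ q (Nat.pair i n) = true)
      (MK.const isClosed_univ)
      (((measurable_pi_apply _).comp φ.measurable) (measurableSet_singleton true))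
  · refine ⟨φ.symm fun k => decide (B k.unpair.2 ⊆ (G k.unpair.1)ᶜ), fun i => ?_⟩
    ext x
    simp only [MeasurableEquiv.apply_symm_apply, Nat.unpair_pair, decide_eq_true_eq, mem_iInter]
    constructor
    · intro h
      by_contra hx
      obtain ⟨n, h1, h2⟩ := hB2 x _ (hG i).isOpen_compl hx
      have := h n
      rw [if_pos h2] at this
      exact this h1
    · intro hx n
      split_ifs with h
      · exact fun h' => h h' hx
      · trivial

lemma exists_set (Γ : ℕ → I → Set (Q × Q)) (hΓ : ∀ i, MK (Γ i)) :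
    ∃ X : Set Q, MeasurableSet X ∧ (∀ q, ∃ x ∈ X, x 0 = q) ∧
      ∀ x ∈ X, ∀ y ∈ X, x ≠ y → ∀ i, ¬ BU (Γ i (x 0)) x y := by
  classical
  obtain ⟨en, hen⟩ := exists_surjective_nat (ℕ × ℕ × ℚ × ℚ × Bool)
  let A : ℚ × Bool → Set I := fun s => if s.2 then {t | (t : ℝ) < s.1} else {t | (s.1 : ℝ) < t}
  have hA : ∀ s, MeasurableSet (A s) := by
    intro s
    simp only [A]
    split_ifs
    · exact (isOpen_lt continuous_subtype_val continuous_const).measurableSet
    · exact (isOpen_lt continuous_const continuous_subtype_val).measurableSet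
  have hs := fun (S : {S : St I // ∀ w, ∀ x ∈ S.K w, x 0 = w}) (n : ℕ) =>
    stage S.1 (Γ (en n).1) (hΓ _) (en n).2.1 (en n).2.2.1 (A (en n).2.2.2) (hA _) S.2
  choose nx n1 n2 n3 n4 using hs
  let S0 : St I := ⟨fun q => {x | x 0 = q}, fun _ j => j + 1,
    (MK.single measurable_id).preimage (f := fun x : Q => x 0) (continuous_apply 0),
    measurable_const, ess_base⟩
  let S : ℕ → {S : St I // ∀ w, ∀ x ∈ S.K w, x 0 = w} := fun n =>
    Nat.rec ⟨S0, fun _ _ h => h⟩ (fun n S => ⟨nx S n, fun w x hx => S.2 w x (n1 S n w hx)⟩) n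
  have hS : ∀ n, (S (n + 1)).1 = nx (S n) n := fun _ => rfl
  have hmk : MK fun w => ⋂ n, (S n).1.K w := MK.iInter fun n => (S n).1.mkK
  refine ⟨{x | x ∈ ⋂ n, (S n).1.K (x 0)}, ?_, fun q => ?_, fun x hx y hy hne i hb => ?_⟩
  · have := ((MK.single (measurable_id (α := Q))).disj (hmk.comp (measurable_pi_apply 0))).compl
    simpa only [compl_ofPred, id, disjoint_singleton_left, not_not] using this
  · obtain ⟨x, hx⟩ := IsCompact.nonempty_iInter_of_sequence_nonempty_isCompact_isClosed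
      (fun n => (S n).1.K q) (fun n => n1 (S n) n q) (fun n => ess_nonempty ((S n).1.ess q))
      ((S 0).1.mkK.1 q).isCompact fun n => (S n).1.mkK.1 q
    have h0 : x 0 = q := (S 0).2 q x (mem_iInter.1 hx 0)
    exact ⟨x, by simpa only [mem_ofPred_eq, h0] using hx, h0⟩
  · have hx' : ∀ n, x ∈ (nx (S n) n).K (x 0) := fun n => mem_iInter.1 hx (n + 1)
    have hy' : ∀ n, y ∈ (nx (S n) n).K (y 0) := fun n => mem_iInter.1 hy (n + 1)
    have h0 : (x 0 : ℝ) ≠ y 0 := by
      intro h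
      have h' : x 0 = y 0 := Subtype.ext h
      refine hne (funext fun m => ?_)
      obtain ⟨n, hn⟩ := hen (0, m, 0, 0, true)
      have := n2 (S n) n (y 0) x (h' ▸ hx' n) y (hy' n)
      rwa [hn] at this
    obtain ⟨m, a, hm⟩ : ∃ m, ∃ a : ℚ, (y m : ℝ) = x 0 + a := by
      obtain ⟨n, hn⟩ := hen (i, 0, 0, 0, true)
      refine n3 (S n) n (x 0) x (hx' n) y ?_
      rwa [hn]
    obtain ⟨s, s1, s2⟩ : ∃ s, x 0 ∈ A s ∧ y 0 ∉ A s := by
      rcases lt_or_gt_of_ne h0 with h | h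
      · obtain ⟨s, s1, s2⟩ := exists_rat_btwn h
        exact ⟨(s, true), s1, not_lt.2 s2.le⟩
      · obtain ⟨s, s1, s2⟩ := exists_rat_btwn h
        exact ⟨(s, false), s2, not_lt.2 s1.le⟩
    obtain ⟨n, hn⟩ := hen (i, m, a, s)
    have := n4 (S n) n (x 0)
    rw [hn] at this
    exact this s1 (y 0) s2 x (hx' n) y (hy' n) hb hm

lemma bu_graph {Y : Set Q} (h : Y ≃ₜ Y) (x : Y) :
    BU (closure (range fun w : Y => ((w : Q), (h w : Q)))) x (h x) := by
  refine ⟨subset_closure ⟨x, rfl⟩, fun p hp hp' => ?_⟩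
  obtain ⟨u, hu1, hu2⟩ := mem_closure_iff_seq_limit.1 hp
  choose w hw using hu1
  have t1 : Filter.Tendsto (fun n => (w n : Q)) Filter.atTop (𝓝 p.1) :=
    ((continuous_fst.tendsto p).comp hu2).congr fun n => by simp [← hw n]
  have t2 : Filter.Tendsto (fun n => (h (w n) : Q)) Filter.atTop (𝓝 p.2) :=
    ((continuous_snd.tendsto p).comp hu2).congr fun n => by simp [← hw n]
  have t3 : Filter.Tendsto w Filter.atTop (𝓝 x) := by
    rcases hp' with e | e
    · rw [e] at t1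
      exact tendsto_subtype_rng.2 t1
    · rw [e] at t2
      have := (h.symm.continuous.tendsto _).comp (tendsto_subtype_rng.2 t2)
      simpa [Function.comp_def] using this
  exact Prod.ext (tendsto_nhds_unique t1 ((continuous_subtype_val.tendsto _).comp t3))
    (tendsto_nhds_unique t2 (((continuous_subtype_val.comp h.continuous).tendsto _).comp t3))

theorem main : ∃ X : Set Q, MeasurableSet X ∧ X.Nonempty ∧
    ¬ ∃ Y : ℕ → Set Q, (⋃ n, Y n) = X ∧ ∀ n, ∀ x y : Y n, ∃ h : Y n ≃ₜ Y n, h x = y := by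
  obtain ⟨Γ, hΓ, hΓ2⟩ := exists_coding
  obtain ⟨X, h1, h2, h3⟩ := exists_set Γ hΓ
  refine ⟨X, h1, (h2 0).imp fun _ h => h.1, ?_⟩
  rintro ⟨Y, hY, hh⟩
  have hsub : ∀ n, Y n ⊆ X := fun n => hY ▸ subset_iUnion Y n
  have key : ∀ n, ∃ G : ℕ → Set (Q × Q), (∀ i, IsClosed (G i)) ∧
      ∀ x ∈ Y n, ∃ i, ∃ y ∈ X, x ≠ y ∧ BU (G i) x y := by
    intro n
    rcases (Y n).subsingleton_or_nontrivial with hs | hs
    · rcases (Y n).eq_empty_or_nonempty with he | ⟨p, hp⟩
      · exact ⟨fun _ => ∅, fun _ => isClosed_empty, by simp [he]⟩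
      · obtain ⟨y, hy, hne⟩ : ∃ y ∈ X, p ≠ y := by
          obtain ⟨a, ha, ha'⟩ := h2 0
          obtain ⟨b, hb, hb'⟩ := h2 1
          by_cases h : p = a
          · refine ⟨b, hb, fun h' => zero_ne_one (α := I) ?_⟩
            rw [← ha', ← hb', ← h, h']
          · exact ⟨a, ha, h⟩
        refine ⟨fun _ => {(p, y)}, fun _ => isClosed_singleton, fun x hx => ?_⟩
        obtain rfl := hs hx hp
        exact ⟨0, y, hy, hne, rfl, fun _ h _ => h⟩
    · obtain ⟨T, hT1, hT2⟩ := TopologicalSpace.isOpen_iUnion_countable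
        (fun h : Y n ≃ₜ Y n => {x | x ≠ h x}) fun h => isOpen_ne_fun continuous_id h.continuous
      obtain ⟨g, hg⟩ := (hT1.insert (Homeomorph.refl _)).exists_eq_range (insert_nonempty _ _)
      refine ⟨fun i => closure (range fun w : Y n => ((w : Q), (g i w : Q))),
        fun _ => isClosed_closure, fun x hx => ?_⟩
      obtain ⟨y, hy, hne⟩ := hs.exists_ne x
      obtain ⟨h, hxy⟩ := hh n ⟨x, hx⟩ ⟨y, hy⟩
      have : (⟨x, hx⟩ : Y n) ∈ ⋃ h ∈ T, {x | x ≠ h x} := by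
        rw [hT2]
        exact mem_iUnion.2 ⟨h, fun e => hne (congrArg Subtype.val (e.trans hxy)).symm⟩
      obtain ⟨k, hk, hk'⟩ := mem_iUnion₂.1 this
      obtain ⟨i, rfl⟩ : k ∈ range g := hg ▸ mem_insert_of_mem _ hk
      exact ⟨i, g i ⟨x, hx⟩, hsub n (g i ⟨x, hx⟩).2, fun e => hk' (Subtype.ext e),
        bu_graph (g i) ⟨x, hx⟩⟩
  choose G g1 g2 using key
  obtain ⟨q, hq⟩ := hΓ2 (fun k => G k.unpair.1 k.unpair.2) fun _ => g1 _ _
  obtain ⟨x, hx, rfl⟩ := h2 q
  obtain ⟨n, hn⟩ := mem_iUnion.1 (hY ▸ hx : x ∈ ⋃ n, Y n)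
  obtain ⟨i, y, hy, hne, hb⟩ := g2 n x hn
  refine h3 x hx y hy hne (Nat.pair n i) ?_
  rw [hq]
  simpa only [Nat.unpair_pair] using hb

end Pool.Agent.H490Z.SH
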