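import Pool.Agent.H490Z.SH.Step

set_option autoImplicit false

open Set Topology unitInterval

namespace Pool.Agent.H490Z.SH

/-- `(x, y)` is the only pair of the relation with first entry `x` or second entry `y` -/
def BU (G : Set (Q × Q)) (x y : Q) : Prop := (x, y) ∈ G ∧ ∀ p ∈ G, (p.1 = x ∨ p.2 = y) → p = (x, y)

/-- the relation is a one to one function on `K` -/
def Fn (G : Set (Q × Q)) (K : Set Q) : Prop := ∀ x ∈ K, ∃ y, BU G x y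

lemma BU.right {G : Set (Q × Q)} {x y y' : Q} (h : BU G x y) (h' : (x, y') ∈ G) : y' = y :=
  congrArg Prod.snd (h.2 _ h' (Or.inl rfl))

lemma BU.left {G : Set (Q × Q)} {x x' y : Q} (h : BU G x y) (h' : (x', y) ∈ G) : x' = x :=
  congrArg Prod.fst (h.2 _ h' (Or.inr rfl))

variable {Ω : Type} [MeasurableSpace Ω]

lemma MK.rel {Y : Type} [TopologicalSpace Y] [CompactSpace Y] [T2Space Y]
    [SecondCountableTopology Y] {f : Ω → I} (hf : Measurable f) {R : Set (I × Y)}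
    (hR : IsClosed R) : MK (fun w => {y | (f w, y) ∈ R}) := by
  have := (((MK.single hf).preimage (f := (Prod.fst : I × Y → I)) continuous_fst).inter
    (MK.const hR)).image continuous_snd
  convert this using 2
  ext y
  simp

lemma step4 (S : St Ω) (G : Ω → Set (Q × Q)) (hG : MK G) : ∃ S' : St Ω, ∀ w,
    S'.K w ⊆ S.K w ∧ ((∀ x ∈ S'.K w, ∀ y, ¬ BU (G w) x y) ∨ Fn (G w) (S'.K w)) := by
  obtain ⟨S1, h1⟩ := step1 S (fun _ w => Prod.fst '' G w) fun _ => hG.image continuous_fst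
  obtain ⟨T, hT1, -, hT2, -⟩ : ∃ T : ℕ → Set ((Q × Q) × (Q × Q)), (∀ n, IsClosed (T n)) ∧
      (∀ n, T n ⊆ {z | z.1 ≠ z.2}) ∧ ⋃ n, T n = {z | z.1 ≠ z.2} ∧ Monotone T := by
    let := TopologicalSpace.metrizableSpaceMetric ((Q × Q) × (Q × Q))
    exact IsOpen.exists_iUnion_isClosed (isOpen_ne_fun continuous_fst continuous_snd)
  have hc : IsClosed {z : (Q × Q) × (Q × Q) | z.2.1 = z.1.1 ∨ z.2.2 = z.1.2} :=
    (isClosed_eq (by fun_prop) (by fun_prop)).union (isClosed_eq (by fun_prop) (by fun_prop))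
  obtain ⟨S2, h2⟩ := step1 S1 (fun n w => (fun z : (Q × Q) × (Q × Q) => z.1.1) ''
    ((Prod.fst ⁻¹' G w ∩ Prod.snd ⁻¹' G w) ∩ ({z | z.2.1 = z.1.1 ∨ z.2.2 = z.1.2} ∩ T n)))
    fun n => (((hG.preimage continuous_fst).inter (hG.preimage continuous_snd)).inter
      (MK.const (hc.inter (hT1 n)))).image (by fun_prop)
  refine ⟨S2, fun w => ⟨(h2 w).1.trans (h1 w).1, ?_⟩⟩
  rcases (h1 w).2 with ⟨-, a1⟩ | a1
  · rcases (h2 w).2 with ⟨n, a2⟩ | a2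
    · refine Or.inl fun x hx y hb => ?_
      obtain ⟨⟨⟨x0, y0⟩, p⟩, ⟨⟨b1, b2⟩, b3, b4⟩, rfl⟩ := a2 hx
      obtain rfl := hb.right b1
      have : ((x0, y0), p) ∈ {z : (Q × Q) × (Q × Q) | z.1 ≠ z.2} := hT2 ▸ mem_iUnion.2 ⟨n, b4⟩
      exact this (hb.2 p b2 b3).symm
    · refine Or.inr fun x hx => ?_
      obtain ⟨⟨x0, y⟩, hy, rfl⟩ := a1 ((h2 w).1 hx)
      refine ⟨y, hy, fun p hp hp' => ?_⟩
      by_contra hne
      have : ((x0, y), p) ∈ ⋃ n, T n := hT2 ▸ fun h => hne (Eq.symm h)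
      obtain ⟨n, hn⟩ := mem_iUnion.1 this
      exact disjoint_left.1 (a2 n) hx ⟨((x0, y), p), ⟨⟨hy, hp⟩, hp', hn⟩, rfl⟩
  · exact Or.inl fun x hx y hb => disjoint_left.1 (a1 0) ((h2 w).1 hx) ⟨_, hb.1, rfl⟩

lemma step5 {J : Type} [Countable J] [Nonempty J] (c : J → ℕ) (S : St Ω) (G : Ω → Set (Q × Q))
    (hG : MK G) (f : Ω → I) (hf : Measurable f) : ∃ S' : St Ω, ∀ w,
    S'.K w ⊆ S.K w ∧ (Fn (G w) (S.K w) →
      (∃ j, ∃ a : ℚ, ∀ x ∈ S'.K w, ∀ y, BU (G w) x y → (y (c j) : ℝ) = f w + a) ∨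
      ∀ j, ∀ x ∈ S'.K w, ∀ x' ∈ S'.K w, ∀ y y', BU (G w) x y → BU (G w) x' y' →
        y (c j) = y' (c j)) := by
  obtain ⟨S1, h1⟩ := step3 S
    (fun (i : J × ℚ) w => Prod.fst '' (G w ∩ {p | (p.2 (c i.1) : ℝ) ≤ f w + i.2}))
    (fun (i : J × ℚ) w => Prod.fst '' (G w ∩ {p | (f w : ℝ) + i.2 ≤ (p.2 (c i.1) : ℝ)}))
    (fun i => (hG.inter (MK.rel hf (R := {z : I × Q × Q | (z.2.2 (c i.1) : ℝ) ≤ z.1 + i.2})
      (isClosed_le (by fun_prop) (by fun_prop)))).image continuous_fst)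
    (fun i => (hG.inter (MK.rel hf (R := {z : I × Q × Q | (z.1 : ℝ) + i.2 ≤ (z.2.2 (c i.1) : ℝ)})
      (isClosed_le (by fun_prop) (by fun_prop)))).image continuous_fst)
  refine ⟨S1, fun w => ⟨(h1 w).1, fun hF => ?_⟩⟩
  have key : ∀ (P : Q × Q → Prop) x y, BU (G w) x y → x ∈ Prod.fst '' (G w ∩ {p | P p}) →
      P (x, y) := by
    rintro P x y hb ⟨⟨x0, y0⟩, ⟨b1, b2⟩, rfl⟩
    obtain rfl := hb.right b1
    exact b2
  rcases (h1 w).2 (fun i x hx => by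
    obtain ⟨y, hy⟩ := hF x hx
    rcases le_total (y (c i.1) : ℝ) (f w + i.2) with h | h
    · exact Or.inl ⟨(x, y), ⟨hy.1, h⟩, rfl⟩
    · exact Or.inr ⟨(x, y), ⟨hy.1, h⟩, rfl⟩) with ⟨i, hi⟩ | h
  · exact Or.inl ⟨i.1, i.2, fun x hx y hb =>
      le_antisymm (key _ x y hb (hi hx).1) (key _ x y hb (hi hx).2)⟩
  · refine Or.inr fun j => ?_
    have h3 : ∀ x ∈ S1.K w, ∀ x' ∈ S1.K w, ∀ y y', BU (G w) x y → BU (G w) x' y' →
        (y (c j) : ℝ) ≤ y' (c j) := by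
      intro x hx x' hx' y y' hb hb'
      by_contra hlt
      push Not at hlt
      obtain ⟨a, ha1, ha2⟩ := exists_rat_btwn (sub_lt_sub_right hlt (f w : ℝ))
      rcases h (j, a) with h | h
      · have : (y (c j) : ℝ) ≤ f w + a := key _ x y hb (h hx)
        linarith
      · have : (f w : ℝ) + a ≤ (y' (c j) : ℝ) := key _ x' y' hb' (h hx')
        linarith
    exact fun x hx x' hx' y y' hb hb' =>
      Subtype.ext (le_antisymm (h3 x hx x' hx' y y' hb hb') (h3 x' hx' x hx y' y hb' hb))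

lemma step6 (m : ℕ) (S : St Ω) (G : Ω → Set (Q × Q)) (hG : MK G) : ∃ S' : St Ω, ∀ w,
    S'.K w ⊆ S.K w ∧ (Fn (G w) (S.K w) →
      ∀ x ∈ S'.K w, ∀ x' ∈ S'.K w, ∀ y y', BU (G w) x y → BU (G w) x' y' → y m = y' m) := by
  obtain ⟨S1, h1⟩ := step5 (fun _ : Unit => m) S G hG (fun _ => 0) measurable_const
  refine ⟨S1, fun w => ⟨(h1 w).1, fun hF => ?_⟩⟩
  rcases (h1 w).2 hF with ⟨-, a, h⟩ | h
  · exact fun x hx x' hx' y y' hb hb' => Subtype.ext ((h x hx y hb).trans (h x' hx' y' hb').symm)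
  · exact h ()

lemma step7 (m : ℕ) (S : St Ω) : ∃ S' : St Ω, ∀ w,
    S'.K w ⊆ S.K w ∧ ∀ x ∈ S'.K w, ∀ x' ∈ S'.K w, x m = x' m := by
  obtain ⟨S1, h1⟩ := step6 m S (fun _ => diagonal Q) (MK.const isClosed_diagonal)
  have hb : ∀ x : Q, BU (diagonal Q) x x := by
    refine fun x => ⟨rfl, ?_⟩
    rintro ⟨a, b⟩ (rfl : a = b) (rfl | rfl) <;> rfl
  exact ⟨S1, fun w => ⟨(h1 w).1, fun x hx x' hx' =>
    (h1 w).2 (fun x _ => ⟨x, hb x⟩) x hx x' hx' x x' (hb x) (hb x')⟩⟩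

lemma step8 (S : St Ω) (G : Ω → Set (Q × Q)) (hG : MK G) (f : Ω → I) (hf : Measurable f) :
    ∃ S' : St Ω, ∀ w, S'.K w ⊆ S.K w ∧ (Fn (G w) (S.K w) →
      ∃ m, ∃ a : ℚ, ∀ x ∈ S'.K w, ∀ y, BU (G w) x y → (y m : ℝ) = f w + a) := by
  obtain ⟨S1, h1⟩ := step5 (id : ℕ → ℕ) S G hG f hf
  refine ⟨S1, fun w => ⟨(h1 w).1, fun hF => ((h1 w).2 hF).resolve_right fun h => ?_⟩⟩
  obtain ⟨x, hx, x', hx', hne⟩ := ess_two (S1.ess w)
  obtain ⟨y, hy⟩ := hF x ((h1 w).1 hx)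
  obtain ⟨y', hy'⟩ := hF x' ((h1 w).1 hx')
  obtain rfl : y = y' := funext fun j => h j x hx x' hx' y y' hy hy'
  exact hne (hy'.left hy.1)

lemma step9 (S : St I) (G : I → Set (Q × Q)) (hG : MK G) (m : ℕ) (a : ℚ) (A : Set I)
    (hA : MeasurableSet A) : ∃ S' : St I, (∀ w, S'.K w ⊆ S.K w) ∧ ∀ q ∈ A, ∀ r ∉ A,
      Fn (G q) (S.K q) → (∀ x ∈ S.K q, ∀ y, BU (G q) x y → y 0 = r) →
      (∀ y ∈ S.K r, (y m : ℝ) = q + a) → ∀ x ∈ S'.K q, ∀ y ∈ S'.K r, ¬ BU (G q) x y := by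
  classical
  obtain ⟨nu, hnu, hnu2⟩ := ((hG.inter (S.mkK.preimage continuous_fst)).image
    (f := fun p : Q × Q => p.2 0) (by fun_prop)).select
  obtain ⟨mu, hmu, hmu2⟩ := (((S.mkK.preimage (f := (Prod.fst : Q × I → Q)) continuous_fst).inter
    (MK.const (F := {z : Q × I | (z.1 m : ℝ) = z.2 + a})
      (isClosed_eq (by fun_prop) (by fun_prop)))).image continuous_snd).select
  have he0 : Measurable fun w => S.e w 0 := (measurable_pi_apply 0).comp S.me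
  have hsl : ∀ t : I, MK fun w => S.K w ∩ {x | x (S.e w 0) = t} := fun t =>
    S.mkK.inter (MK.choice (F := fun i _ => {x : Q | x i = t})
      (fun i => MK.const (isClosed_eq (continuous_apply i) continuous_const)) he0)
  have hH : MK fun w => Prod.snd '' (G w ∩ Prod.fst ⁻¹' (S.K w ∩ {x | x (S.e w 0) = 0})) :=
    (hG.inter ((hsl 0).preimage continuous_fst)).image continuous_snd
  obtain ⟨T, hT⟩ := step1 S (fun _ w => Prod.snd '' (G (mu w) ∩ Prod.fst ⁻¹'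
    (S.K (mu w) ∩ {x | x (S.e (mu w) 0) = 0}))) fun _ => hH.comp hmu
  have hd := hH.disj (T.mkK.comp hnu)
  refine ⟨⟨fun w => if w ∈ A then (if Disjoint (Prod.snd '' (G w ∩ Prod.fst ⁻¹'
      (S.K w ∩ {x | x (S.e w 0) = 0}))) (T.K (nu w)) then S.K w ∩ {x | x (S.e w 0) = 0}
      else S.K w ∩ {x | x (S.e w 0) = 1}) else T.K w,
    fun w => if w ∈ A then fun j => S.e w (j + 1) else T.e w, ?_,
    Measurable.ite hA (measurable_pi_lambda _ fun j => (measurable_pi_apply (j + 1)).comp S.me)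
      T.me, fun w => ?_⟩, fun w => ?_, ?_⟩
  · convert ((hsl 0).ite (hsl 1) hd).ite (p := fun w => w ∈ A) T.mkK hA
  · split_ifs
    exacts [ess_slice (S.ess w) 0, ess_slice (S.ess w) 1, T.ess w]
  · dsimp only
    split_ifs
    exacts [inter_subset_left, inter_subset_left, (hT w).1]
  · intro q hq r hr hF h1 h2 x hx y hy hb
    simp only [if_pos hq, if_neg hr] at hx hy
    have hxK : x ∈ S.K q := by
      split_ifs at hx
      exacts [hx.1, hx.1]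
    have e1 : nu q = r := by
      refine hnu2 q r (eq_singleton_iff_unique_mem.2 ⟨⟨(x, y), ⟨hb.1, hxK⟩, h1 x hxK y hb⟩, ?_⟩)
      rintro _ ⟨⟨x', y'⟩, ⟨b1, b2⟩, rfl⟩
      obtain ⟨y'', b3⟩ := hF x' b2
      obtain rfl := b3.right b1
      exact h1 x' b2 y' b3
    have e2 : mu r = q := by
      refine hmu2 r q (eq_singleton_iff_unique_mem.2
        ⟨⟨(y, q), ⟨(hT r).1 hy, h2 y ((hT r).1 hy)⟩, rfl⟩, ?_⟩)
      rintro _ ⟨⟨y', t⟩, ⟨b1, b2⟩, rfl⟩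
      have b3 := h2 y' b1
      have b4 : (y' m : ℝ) = t + a := b2
      exact Subtype.ext (by simp only; linarith)
    rw [e1] at hx
    have hT2 := (hT r).2
    simp only [e2] at hT2
    split_ifs at hx with hc
    · exact disjoint_left.1 hc ⟨(x, y), ⟨hb.1, hx⟩, rfl⟩ hy
    · rcases hT2 with ⟨-, h3⟩ | h3
      · obtain ⟨⟨x', y'⟩, ⟨b1, b2⟩, rfl⟩ := h3 hy
        obtain rfl := hb.left b1
        exact zero_ne_one (α := I) ((b2.2 : x' (S.e q 0) = 0).symm.trans hx.2)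
      · exact hc (h3 0).symm

lemma stage (S : St I) (G : I → Set (Q × Q)) (hG : MK G) (m : ℕ) (a : ℚ) (A : Set I)
    (hA : MeasurableSet A) (h0 : ∀ w, ∀ x ∈ S.K w, x 0 = w) :
    ∃ S' : St I, (∀ w, S'.K w ⊆ S.K w) ∧
      (∀ w, ∀ x ∈ S'.K w, ∀ x' ∈ S'.K w, x m = x' m) ∧
      (∀ w, ∀ x ∈ S'.K w, ∀ y, BU (G w) x y → ∃ m, ∃ a : ℚ, (y m : ℝ) = w + a) ∧
      ∀ q ∈ A, ∀ r ∉ A, ∀ x ∈ S'.K q, ∀ y ∈ S'.K r, BU (G q) x y → (y m : ℝ) ≠ q + a := by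
  obtain ⟨S1, h1⟩ := step4 S G hG
  obtain ⟨S2, h2⟩ := step8 S1 G hG id measurable_id
  obtain ⟨S3, h3⟩ := step6 0 S2 G hG
  obtain ⟨S4, h4⟩ := step7 m S3
  obtain ⟨S5, h5, h6⟩ := step9 S4 G hG m a A hA
  have s4 : ∀ w, S4.K w ⊆ S2.K w := fun w => (h4 w).1.trans (h3 w).1
  have s1 : ∀ w, S4.K w ⊆ S1.K w := fun w => (s4 w).trans (h2 w).1
  refine ⟨S5, fun w => (h5 w).trans ((s1 w).trans (h1 w).1),
    fun w x hx x' hx' => (h4 w).2 x (h5 w hx) x' (h5 w hx'), fun w x hx y hb => ?_,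
    fun q hq r hr x hx y hy hb he => ?_⟩
  · have hF := (h1 w).2.resolve_left fun h => h x (s1 w (h5 w hx)) y hb
    obtain ⟨m, a, h⟩ := (h2 w).2 hF
    exact ⟨m, a, h x (s4 w (h5 w hx)) y hb⟩
  · have hF := (h1 q).2.resolve_left fun h => h x (s1 q (h5 q hx)) y hb
    refine h6 q hq r hr (fun z hz => hF z (s1 q hz)) (fun x' hx' y' hb' => ?_)
      (fun y' hy' => ?_) x hx y hy hb
    · rw [← h0 r y ((h1 r).1 (s1 r (h5 r hy)))]
      exact (h3 q).2 (fun z hz => hF z ((h2 q).1 hz)) x' ((h4 q).1 hx') x ((h4 q).1 (h5 q hx))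
        y' y hb' hb
    · rw [← he, (h4 r).2 y' hy' y (h5 r hy)]

end Pool.Agent.H490Z.SH
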