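import Pool.Agent.H490Z.SH.Ess

set_option autoImplicit false

open Set Topology unitInterval

namespace Pool.Agent.H490Z.SH

/-- coded open sets -/
noncomputable def cU : ℕ → ℕ → Set Q := exists_codes.choose
/-- coded open sets -/
noncomputable def cV : ℕ → ℕ → Set Q := exists_codes.choose_spec.choose
/-- coded covers -/
def cW (k : ℕ) : Set Q := ⋃ j, (cU k j ∪ cV k j)

lemma c_open (k j : ℕ) : IsOpen (cU k j) ∧ IsOpen (cV k j) :=
  exists_codes.choose_spec.choose_spec.1 k j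

lemma cW_open (k : ℕ) : IsOpen (cW k) :=
  isOpen_iUnion fun j => (c_open k j).1.union (c_open k j).2

lemma iness_iff {K : Set Q} {e : ℕ → ℕ} (hK : IsClosed K) :
    Iness K e ↔ ∃ k, Wit (cU k) (cV k) e ∧ K ⊆ cW k :=
  ⟨exists_codes.choose_spec.choose_spec.2 K e hK, fun ⟨k, h1, h2⟩ => ⟨_, _, c_open k, h1, h2⟩⟩

variable {Ω : Type} [MeasurableSpace Ω]

lemma meas_code {K : Ω → Set Q} {e : Ω → ℕ → ℕ} (hK : MK K) (he : Measurable e) (k : ℕ) :
    MeasurableSet {w | Wit (cU k) (cV k) (e w) ∧ K w ⊆ cW k} := by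
  refine MeasurableSet.inter (s₁ := {w | Wit (cU k) (cV k) (e w)}) ?_ (hK.subset (cW_open k))
  simp only [Wit, ofPred_forall]
  refine MeasurableSet.iInter fun j => ?_
  exact ((measurable_pi_apply j).comp he) (MeasurableSet.of_discrete (s := {i : ℕ |
    Disjoint (cU k j) (cV k j) ∧ (∀ x ∈ cU k j, x i ≠ 1) ∧ ∀ x ∈ cV k j, x i ≠ 0}))

lemma meas_iness {K : Ω → Set Q} {e : Ω → ℕ → ℕ} (hK : MK K) (he : Measurable e) :
    MeasurableSet {w | Iness (K w) (e w)} := by
  simp only [iness_iff (hK.1 _), ofPred_exists]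
  exact MeasurableSet.iUnion (meas_code hK he)

lemma meas_sub {e : Ω → ℕ → ℕ} {a : Ω → ℕ} (he : Measurable e) (ha : Measurable a) :
    Measurable fun w => sub (a w) (e w) :=
  measurable_pi_lambda _ fun j => meas_eval (e := e) (n := fun w => Nat.pair (a w) j) he
    ((measurable_from_top (f := fun n => Nat.pair n j)).comp ha)

/-- a measurable family of compact sets with essential families of directions -/
structure St (Ω : Type) [MeasurableSpace Ω] where
  /-- the compact sets -/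
  K : Ω → Set Q
  /-- the directions -/
  e : Ω → ℕ → ℕ
  mkK : MK K
  me : Measurable e
  ess : ∀ w, ¬ Iness (K w) (e w)

lemma step1 (S : St Ω) (F : ℕ → Ω → Set Q) (hF : ∀ m, MK (F m)) : ∃ S' : St Ω, ∀ w,
    S'.K w ⊆ S.K w ∧ ((∃ m, S'.K w ⊆ F m w) ∨ ∀ m, Disjoint (S'.K w) (F m w)) := by
  classical
  have hsub : ∀ a, Measurable fun w => sub a (S.e w) := fun a => meas_sub S.me measurable_const
  have hA : ∀ m, MeasurableSet {w | ¬ Iness (S.K w ∩ F m w) (sub (m + 1) (S.e w))} :=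
    fun m => (meas_iness (S.mkK.inter (hF m)) (hsub _)).compl
  obtain ⟨g, hg, hg2⟩ := exists_meas_choice _ hA
  have hk : ∀ m, ∃ k : Ω → ℕ, Measurable k ∧ ∀ w, Iness (S.K w ∩ F m w) (sub (m + 1) (S.e w)) →
      Wit (cU (k w)) (cV (k w)) (sub (m + 1) (S.e w)) ∧ S.K w ∩ F m w ⊆ cW (k w) := by
    intro m
    obtain ⟨k, h1, h2⟩ := exists_meas_choice _ (meas_code (S.mkK.inter (hF m)) (hsub (m + 1)))
    exact ⟨k, h1, fun w hw => h2 w ((iness_iff ((S.mkK.inter (hF m)).1 w)).1 hw)⟩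
  choose k hk1 hk2 using hk
  have hp : MeasurableSet {w | ∃ m, ¬ Iness (S.K w ∩ F m w) (sub (m + 1) (S.e w))} := by
    rw [ofPred_exists]; exact MeasurableSet.iUnion hA
  refine ⟨⟨fun w => if ∃ m, ¬ Iness (S.K w ∩ F m w) (sub (m + 1) (S.e w)) then
      S.K w ∩ F (g w) w else S.K w ∩ ⋂ m, (cW (k m w))ᶜ,
    fun w => if ∃ m, ¬ Iness (S.K w ∩ F m w) (sub (m + 1) (S.e w)) then
      sub (g w + 1) (S.e w) else sub 0 (S.e w),
    (S.mkK.inter (MK.choice hF hg)).ite (S.mkK.inter (MK.iInter fun m =>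
      MK.choice (F := fun k _ => (cW k)ᶜ) (fun k => MK.const (cW_open k).isClosed_compl)
        (hk1 m))) hp,
    Measurable.ite hp (meas_sub S.me (hg.add_const 1)) (hsub 0), fun w => ?_⟩, fun w => ?_⟩
  · split_ifs with h
    · exact hg2 w h
    · push Not at h
      intro h'
      refine S.ess w (iness_union (fun a => Nat.casesOn a (S.K w ∩ ⋂ m, (cW (k m w))ᶜ)
        fun m => cW (k m w)) (fun a => ?_) fun x hx => ?_)
      · cases a with
        | zero => exact h'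
        | succ m => exact ⟨_, _, c_open _, (hk2 m w (h m)).1, Subset.rfl⟩
      · by_cases hx' : ∃ m, x ∈ cW (k m w)
        · obtain ⟨m, hm⟩ := hx'
          exact mem_iUnion.2 ⟨m + 1, hm⟩
        · push Not at hx'
          exact mem_iUnion.2 ⟨0, hx, mem_iInter.2 hx'⟩
  · dsimp only
    split_ifs with h
    · exact ⟨inter_subset_left, Or.inl ⟨_, inter_subset_right⟩⟩
    · push Not at h
      refine ⟨inter_subset_left, Or.inr fun m => disjoint_left.2 fun x hx hx' => ?_⟩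
      exact mem_iInter.1 hx.2 m ((hk2 m w (h m)).2 ⟨hx.1, hx'⟩)

lemma step2 (S : St Ω) (C D : ℕ → Ω → Set Q) (hC : ∀ m, MK (C m)) (hD : ∀ m, MK (D m)) :
    ∃ S' : St Ω, ∀ w, S'.K w ⊆ S.K w ∧ ((∀ n, S.K w ⊆ C n w ∪ D n w) →
      (∀ n, Disjoint (S.K w) (C n w ∩ D n w)) → ∀ n, S'.K w ⊆ C n w ∨ S'.K w ⊆ D n w) := by
  classical
  let L : ℕ → Ω → Set Q := fun n => Nat.rec S.K (fun n L w =>
    if ¬ Iness (L w ∩ C n w) (S.e w) then L w ∩ C n w else
      if ¬ Iness (L w ∩ D n w) (S.e w) then L w ∩ D n w else L w) n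
  have hL : ∀ n w, L (n + 1) w = if ¬ Iness (L n w ∩ C n w) (S.e w) then L n w ∩ C n w else
      if ¬ Iness (L n w ∩ D n w) (S.e w) then L n w ∩ D n w else L n w := fun _ _ => rfl
  have h1 : ∀ n, MK (L n) := by
    intro n
    induction n with
    | zero => exact S.mkK
    | succ n ih =>
      rw [show L (n + 1) = _ from funext (hL n)]
      have := (ih.inter (hC n)).ite (p := fun w => ¬ Iness (L n w ∩ C n w) (S.e w))
        ((ih.inter (hD n)).ite (p := fun w => ¬ Iness (L n w ∩ D n w) (S.e w)) ih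
        (meas_iness (ih.inter (hD n)) S.me).compl) (meas_iness (ih.inter (hC n)) S.me).compl
      convert this
  have h2 : ∀ n w, ¬ Iness (L n w) (S.e w) := by
    intro n w
    induction n with
    | zero => exact S.ess w
    | succ n ih => rw [hL]; split_ifs <;> assumption
  have h3 : ∀ w, Antitone fun n => L n w := fun w => antitone_nat_of_succ_le fun n => by
    rw [hL]
    split_ifs
    exacts [Subset.rfl, inter_subset_left, inter_subset_left]
  refine ⟨⟨fun w => ⋂ n, L n w, S.e, MK.iInter h1, S.me, fun w h => ?_⟩, fun w =>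
    ⟨iInter_subset (fun n => L n w) 0, fun a1 a2 n => ?_⟩⟩
  · obtain ⟨n, hn⟩ := iness_iInter (fun n => (h1 n).1 w) (h3 w) h
    exact h2 n w hn
  · have b0 : L n w ⊆ S.K w := h3 w (Nat.zero_le n)
    have b1 : (⋂ n, L n w) ⊆ L (n + 1) w := iInter_subset (fun n => L n w) (n + 1)
    rw [hL] at b1
    split_ifs at b1 with c1 c2
    · exfalso
      refine h2 n w ((iness_disj (((h1 n).1 w).inter ((hC n).1 w))
        (((h1 n).1 w).inter ((hD n).1 w)) (disjoint_left.2 fun x hx hx' => ?_) c1 c2).mono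
        fun x hx => ?_)
      · exact disjoint_left.1 (a2 n) (b0 hx.1) ⟨hx.2, hx'.2⟩
      · exact (a1 n (b0 hx)).imp (fun h => ⟨hx, h⟩) fun h => ⟨hx, h⟩
    · exact Or.inr (b1.trans inter_subset_right)
    · exact Or.inl (b1.trans inter_subset_right)

lemma step3 {ι : Type} [Countable ι] [Nonempty ι] (S : St Ω) (C D : ι → Ω → Set Q)
    (hC : ∀ m, MK (C m)) (hD : ∀ m, MK (D m)) :
    ∃ S' : St Ω, ∀ w, S'.K w ⊆ S.K w ∧ ((∀ n, S.K w ⊆ C n w ∪ D n w) →
      (∃ n, S'.K w ⊆ C n w ∩ D n w) ∨ ∀ n, S'.K w ⊆ C n w ∨ S'.K w ⊆ D n w) := by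
  obtain ⟨en, hen⟩ := exists_surjective_nat ι
  obtain ⟨S1, h1⟩ := step1 S (fun n w => C (en n) w ∩ D (en n) w)
    fun n => (hC _).inter (hD _)
  obtain ⟨S2, h2⟩ := step2 S1 (fun n => C (en n)) (fun n => D (en n)) (fun n => hC _)
    fun n => hD _
  refine ⟨S2, fun w => ⟨(h2 w).1.trans (h1 w).1, fun h => ?_⟩⟩
  rcases (h1 w).2 with ⟨m, hm⟩ | h'
  · exact Or.inl ⟨_, (h2 w).1.trans hm⟩
  · refine Or.inr fun i => ?_
    obtain ⟨n, rfl⟩ := hen i
    exact (h2 w).2 (fun n => (h1 w).1.trans (h _)) h' n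

end Pool.Agent.H490Z.SH
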